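import Pool.Agent.UQC.All
import Pool.Agent.UQSh.Main

/-!
# MP_0dee97_pr: the connective constant of the UIPQ is at least 2
-/

open MeasureTheory

namespace Pool.Agent.Results.MP_0dee97_pr.AtLeastTwo

open Pool.Agent.UQC

/-- (1) Every infinite rooted planar quadrangulation has connective constant at least `2`. (2) In particular the
uniform infinite planar quadrangulation has, almost surely. (3) In (1) the constant `2` is optimal. -/
theorem result :
    (∀ (D : Type) (M : CMap D) (ρ : D), IsInfQuad M ρ → 2 ≤ mu M ρ) ∧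
    (∀ (Ω : Type) [MeasurableSpace Ω] (P : Measure Ω) [IsProbabilityMeasure P] (Q : Ω → CMap ℕ),
      IsUIPQ P Q → ∀ᵐ ω ∂P, 2 ≤ mu (Q ω) 0) ∧
    ∃ (D : Type) (M : CMap D) (ρ : D), IsInfQuad M ρ ∧ mu M ρ = 2 :=
  ⟨all_Fin.1, all_Fin.2, Pool.Agent.UQSh.sharp all_Fin.1⟩

end Pool.Agent.Results.MP_0dee97_pr.AtLeastTwo
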